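import Pool.Agent.Lib.MP_7b563b_co.LitMain

set_option autoImplicit false

namespace Pool.Agent.Lib.MP_7b563b_poly

open Pool.Agent.Lib.MP_7b563b_co Pool.Agent.Lib.MP_7b563b_co.Lit

lemma side_disjoint {W : Type} {T : SimpleGraph W} (hT : T.IsAcyclic) {u w z : W} (h : T.Adj u w)
    (h1 : z ∈ side T u w) (h2 : z ∈ side T w u) : False := by
  have hb : ¬ (T.deleteEdges {s(u, w)}).Reachable u w :=
    SimpleGraph.isAcyclic_iff_forall_adj_isBridge.1 hT h
  have h3 : (T.deleteEdges {s(u, w)}).Reachable w z := by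
    have : (T.deleteEdges {s(w, u)}).Reachable w z := h2
    rwa [Sym2.eq_swap] at this
  exact hb (SimpleGraph.Reachable.trans h1 h3.symm)

lemma mem_side_self {W : Type} {T : SimpleGraph W} (hT : T.Connected) (u x : W) :
    x ∈ side T u u := (side_cover hT u u x).elim id id

lemma exists_labels {α ι : Type} [Fintype ι] [DecidableEq ι] (Z : Finset α) (c : α → ι) (m : ℕ)
    (hm : 1 ≤ m) (hZ : m ≤ Z.card) (hc : ∀ i, (Z.filter fun z => c z = i).card < m) :
    ∃ F : Finset ι, m ≤ (Z.filter fun z => c z ∈ F).card ∧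
      (Z.filter fun z => c z ∈ F).card < 2 * m := by
  classical
  obtain ⟨F, hF, hmin⟩ := Finset.exists_min_image
    (Finset.univ.filter fun F : Finset ι => m ≤ (Z.filter fun z => c z ∈ F).card) Finset.card
    ⟨Finset.univ, by simpa using hZ⟩
  have hF1 := (Finset.mem_filter.1 hF).2
  refine ⟨F, hF1, ?_⟩
  obtain ⟨z, hz⟩ : (Z.filter fun z => c z ∈ F).Nonempty := Finset.card_pos.1 (by omega)
  have hzF := (Finset.mem_filter.1 hz).2
  have h1 : (Z.filter fun y => c y ∈ F.erase (c z)).card < m := by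
    by_contra hge
    have := hmin (F.erase (c z)) (Finset.mem_filter.2 ⟨Finset.mem_univ _, not_lt.1 hge⟩)
    have h2 := Finset.card_erase_lt_of_mem hzF
    omega
  have h2 : (Z.filter fun y => c y ∈ F) ⊆
      (Z.filter fun y => c y ∈ F.erase (c z)) ∪ (Z.filter fun y => c y = c z) := by
    intro y hy
    obtain ⟨hy1, hy2⟩ := Finset.mem_filter.1 hy
    by_cases h : c y = c z
    · exact Finset.mem_union_right _ (Finset.mem_filter.2 ⟨hy1, h⟩)
    · exact Finset.mem_union_left _ (Finset.mem_filter.2 ⟨hy1, Finset.mem_erase.2 ⟨h, hy2⟩⟩)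
  have h3 := (Finset.card_le_card h2).trans (Finset.card_union_le _ _)
  have h4 := hc (c z)
  omega

variable {V : Type} {G : SimpleGraph V}

/-- the bags of a vertex outside the bag of `u` lie in one branch at `u` -/
lemma exists_branch (D : TreeDecomp G) (u : Fin D.n) (v : V) (hv : v ∉ D.bag u) :
    ∃ c, D.T.Adj u c ∧ ∀ x, v ∈ D.bag x → x ∈ side D.T c u := by
  obtain ⟨x0, hx0⟩ := D.cover_vert v
  rcases side_decomp (mem_side_self D.isTree.connected u x0) with h | ⟨c, _, hc, hx⟩
  · exact absurd (h ▸ hx0) hv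
  refine ⟨c, hc, fun x hxv => ?_⟩
  have hr := (D.conn v).preconnected ⟨x0, hx0⟩ ⟨x, hxv⟩
  have hr' := (SimpleGraph.reachable_iff_reflTransGen _ _).1 hr
  have key : ∀ y : {w | v ∈ D.bag w},
      Relation.ReflTransGen (D.T.induce {w | v ∈ D.bag w}).Adj ⟨x0, hx0⟩ y →
        y.1 ∈ side D.T c u := by
    intro y hy
    induction hy with
    | refl => exact hx
    | @tail a b _ hab ih =>
      refine side_step ih hab fun he => ?_
      rcases Sym2.eq_iff.1 he with ⟨_, h⟩ | ⟨h, _⟩
      · exact hv (h ▸ b.2)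
      · exact hv (h ▸ a.2)
  exact key _ hr'

open Classical in
/-- If any two `m`-subsets of `A` and `B` are joined by an edge, some bag of every tree
decomposition holds all but `3 m` vertices of `A` or of `B`. -/
lemma bag_big (D : TreeDecomp G) (A B : Finset V) (m β : ℕ) (hA : β + 3 * m ≤ A.card)
    (hB : β + 3 * m ≤ B.card)
    (hm : ∀ X ⊆ A, ∀ Y ⊆ B, X.card = m → Y.card = m → ∃ x ∈ X, ∃ y ∈ Y, G.Adj x y) :
    ∃ w, β ≤ (A.filter fun v => v ∈ D.bag w).card ∨ β ≤ (B.filter fun v => v ∈ D.bag w).card := by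
  by_contra hno
  push Not at hno
  have hm1 : 1 ≤ m := by
    by_contra h0
    obtain ⟨x, hx, _⟩ := hm ∅ (Finset.empty_subset _) ∅ (Finset.empty_subset _)
      (by simp; omega) (by simp; omega)
    simp at hx
  have hm' : ∀ X ⊆ A, ∀ Y ⊆ B, m ≤ X.card → m ≤ Y.card → ∃ x ∈ X, ∃ y ∈ Y, G.Adj x y := by
    intro X hX Y hY h1 h2
    obtain ⟨X', hX', h3⟩ := Finset.exists_subset_card_eq h1
    obtain ⟨Y', hY', h4⟩ := Finset.exists_subset_card_eq h2
    obtain ⟨x, hx, y, hy, h⟩ := hm X' (hX'.trans hX) Y' (hY'.trans hY) h3 h4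
    exact ⟨x, hX' hx, y, hY' hy, h⟩
  have hac := D.isTree.isAcyclic
  let cnt : Fin D.n → Fin D.n → ℕ := fun u w =>
    (A.filter fun v => ∀ x, v ∈ D.bag x → x ∈ side D.T u w).card
  obtain ⟨u0⟩ := D.isTree.connected.nonempty
  obtain ⟨⟨u, w⟩, he, hmin⟩ := Finset.exists_min_image
    (Finset.univ.filter fun e : Fin D.n × Fin D.n => (D.T.Adj e.1 e.2 ∨ e.1 = e.2) ∧ m ≤ cnt e.1 e.2)
    (fun e => (side D.T e.1 e.2).ncard) ⟨(u0, u0), Finset.mem_filter.2 ⟨Finset.mem_univ _,
      Or.inr rfl, by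
        have : (A.filter fun v => ∀ x, v ∈ D.bag x → x ∈ side D.T u0 u0) = A :=
          Finset.filter_true_of_mem fun v _ x _ => mem_side_self D.isTree.connected u0 x
        simp only [cnt]
        rw [this]; omega⟩⟩
  have he' := (Finset.mem_filter.1 he).2
  dsimp only at he' hmin
  have hbr : ∀ v, ∃ c, v ∉ D.bag u → D.T.Adj u c ∧ ∀ x, v ∈ D.bag x → x ∈ side D.T c u := by
    intro v
    by_cases hv : v ∈ D.bag u
    · exact ⟨u, fun h => absurd hv h⟩
    · obtain ⟨c, hc⟩ := exists_branch D u v hv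
      exact ⟨c, fun _ => hc⟩
  choose c hc using hbr
  have hadj : ∀ a b, a ∉ D.bag u → b ∉ D.bag u → G.Adj a b → c a = c b := by
    intro a b ha hb hab
    obtain ⟨z, hz1, hz2⟩ := D.cover_edge a b hab
    by_contra hne
    exact side_disjoint hac (hc b hb).1
      ((side_ssubset hac hne (hc a ha).1).1 ((hc a ha).2 z hz1)) ((hc b hb).2 z hz2)
  let A' := A.filter fun v => ¬ v ∈ D.bag u
  let B' := B.filter fun v => ¬ v ∈ D.bag u
  have hA' : 3 * m < A'.card := by
    have h1 := Finset.card_filter_add_card_filter_not (s := A) (fun v => v ∈ D.bag u)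
    have h2 := (hno u).1
    simp only [A']
    omega
  have hB' : 3 * m < B'.card := by
    have h1 := Finset.card_filter_add_card_filter_not (s := B) (fun v => v ∈ D.bag u)
    have h2 := (hno u).2
    simp only [B']
    omega
  have hdich : ∀ (P : Fin D.n → Prop) (X Y : Finset V), X ⊆ A' → Y ⊆ B' → (∀ x ∈ X, P (c x)) →
      (∀ y ∈ Y, ¬ P (c y)) → m ≤ X.card → Y.card < m := by
    intro P X Y hX hY hXP hYP h1
    by_contra h2
    obtain ⟨x, hx, y, hy, hxy⟩ := hm' X (hX.trans (Finset.filter_subset _ _)) Y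
      (hY.trans (Finset.filter_subset _ _)) h1 (not_lt.1 h2)
    exact hYP y hy (hadj x y (Finset.mem_filter.1 (hX hx)).2 (Finset.mem_filter.1 (hY hy)).2 hxy ▸
      hXP x hx)
  have hfib : ∀ i, (A'.filter fun v => c v = i).card < m := by
    intro i
    by_contra hge
    push Not at hge
    obtain ⟨a, ha⟩ : (A'.filter fun v => c v = i).Nonempty := Finset.card_pos.1 (by omega)
    have hui : D.T.Adj u i :=
      (Finset.mem_filter.1 ha).2 ▸ (hc a (Finset.mem_filter.1 (Finset.mem_filter.1 ha).1).2).1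
    by_cases hiw : i = w
    · subst hiw
      have h1 := hdich (fun j => j = i) _ (B'.filter fun v => ¬ c v = i) (Finset.filter_subset _ _)
        (Finset.filter_subset _ _) (fun x hx => (Finset.mem_filter.1 hx).2)
        (fun x hx => (Finset.mem_filter.1 hx).2) hge
      have h2 := Finset.card_filter_add_card_filter_not (s := B') (fun v => c v = i)
      obtain ⟨x, hx, y, hy, hxy⟩ := hm' _ (Finset.filter_subset _ _) (B'.filter fun v => c v = i)
        ((Finset.filter_subset _ _).trans (Finset.filter_subset _ _)) he'.2 (by omega)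
      obtain ⟨z, hz1, hz2⟩ := D.cover_edge x y hxy
      obtain ⟨hy1, hy2⟩ := Finset.mem_filter.1 hy
      exact side_disjoint hac hui ((Finset.mem_filter.1 hx).2 z hz1)
        (hy2 ▸ (hc y (Finset.mem_filter.1 hy1).2).2 z hz2)
    · have h1 : m ≤ cnt i u := by
        refine hge.trans (Finset.card_le_card fun v hv => ?_)
        obtain ⟨hv1, hv2⟩ := Finset.mem_filter.1 hv
        obtain ⟨hv3, hv4⟩ := Finset.mem_filter.1 hv1
        exact Finset.mem_filter.2 ⟨hv3, hv2 ▸ (hc v hv4).2⟩
      have h3 := hmin (i, u) (Finset.mem_filter.2 ⟨Finset.mem_univ _, Or.inl hui.symm, h1⟩)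
      have h4 := Set.ncard_lt_ncard (side_ssubset hac hiw hui)
      dsimp only at h3
      omega
  obtain ⟨F, hF1, hF2⟩ := exists_labels A' c m hm1 (by omega) hfib
  have h1 := hdich (fun j => j ∈ F) _ (B'.filter fun v => ¬ c v ∈ F) (Finset.filter_subset _ _)
    (Finset.filter_subset _ _) (fun x hx => (Finset.mem_filter.1 hx).2)
    (fun x hx => (Finset.mem_filter.1 hx).2) hF1
  have h2 := Finset.card_filter_add_card_filter_not (s := A') (fun v => c v ∈ F)
  have h3 := hdich (fun j => ¬ j ∈ F) (A'.filter fun v => ¬ c v ∈ F) (B'.filter fun v => c v ∈ F)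
    (Finset.filter_subset _ _) (Finset.filter_subset _ _) (fun x hx => (Finset.mem_filter.1 hx).2)
    (fun x hx => not_not.2 (Finset.mem_filter.1 hx).2) (by omega)
  have h4 := Finset.card_filter_add_card_filter_not (s := B') (fun v => c v ∈ F)
  omega

end Pool.Agent.Lib.MP_7b563b_poly
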