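import Pool.Agent.Lib.MP_7b563b_co.LitMain

set_option autoImplicit false

namespace Pool.Agent.Lib.MP_7b563b_poly

open Pool.Agent.Lib.MP_7b563b_co.Lit

/-- The caterpillar: spine `0, …, M + 1`, pendant leaf `k + M + 1` at the spine node `k`. -/
def cat (M : ℕ) : SimpleGraph (Fin (2 * M + 2)) where
  Adj x y := (y.val = x.val + 1 ∧ y.val ≤ M + 1) ∨ (x.val = y.val + 1 ∧ x.val ≤ M + 1) ∨
    (1 ≤ x.val ∧ y.val = x.val + M + 1) ∨ (1 ≤ y.val ∧ x.val = y.val + M + 1)
  symm := ⟨fun x y h => by omega⟩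
  loopless := ⟨fun x h => by omega⟩

lemma cat_adj {M : ℕ} {x y : Fin (2 * M + 2)} : (cat M).Adj x y ↔
    (y.val = x.val + 1 ∧ y.val ≤ M + 1) ∨ (x.val = y.val + 1 ∧ x.val ≤ M + 1) ∨
    (1 ≤ x.val ∧ y.val = x.val + M + 1) ∨ (1 ≤ y.val ∧ x.val = y.val + M + 1) := Iff.rfl

/-- The leaf of a vertex. -/
def catLeaf (M : ℕ) (v : Fin (M + 2)) : Fin (2 * M + 2) :=
  if h : v.val = 0 ∨ v.val = M + 1 then ⟨v.val, by omega⟩ else ⟨v.val + M + 1, by omega⟩

lemma catLeaf_val {M : ℕ} (v : Fin (M + 2)) :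
    ((v.val = 0 ∨ v.val = M + 1) ∧ (catLeaf M v).val = v.val) ∨
    (v.val ≠ 0 ∧ v.val ≠ M + 1 ∧ (catLeaf M v).val = v.val + M + 1) := by
  unfold catLeaf
  split_ifs with h
  · exact Or.inl ⟨h, rfl⟩
  · exact Or.inr ⟨by omega, by omega, rfl⟩

lemma cat_conn (M : ℕ) : (cat M).Connected := by
  have key : ∀ k : ℕ, ∀ x : Fin (2 * M + 2), x.val = k → (cat M).Reachable ⟨0, by omega⟩ x := by
    intro k
    induction k using Nat.strong_induction_on with
    | _ k ih =>
      intro x hx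
      have h2 := x.2
      by_cases h0 : k = 0
      · have : x = ⟨0, by omega⟩ := Fin.ext (by simp only; omega)
        rw [this]
      by_cases h1 : k ≤ M + 1
      · exact (ih (k - 1) (by omega) ⟨k - 1, by omega⟩ rfl).trans
          (SimpleGraph.Adj.reachable (cat_adj.2 (by simp only; omega)))
      · exact (ih (k - (M + 1)) (by omega) ⟨k - (M + 1), by omega⟩ rfl).trans
          (SimpleGraph.Adj.reachable (cat_adj.2 (by simp only; omega)))
  exact ⟨fun x y => (key _ x rfl).symm.trans (key _ y rfl)⟩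

/-- Every edge is cut by a predicate on the values. -/
lemma cat_cut {M : ℕ} {a b : Fin (2 * M + 2)} (h : (cat M).Adj a b) :
    ∃ φ : Fin (2 * M + 2) → Prop, (φ a ↔ ¬ φ b) ∧
      (∀ x y, (cat M).Adj x y → s(x, y) ≠ s(a, b) → (φ x ↔ φ y)) ∧
      (({v | φ (catLeaf M v)} : Set (Fin (M + 2))).Subsingleton ∨
        ∃ k : ℕ, {v | φ (catLeaf M v)} = {v : Fin (M + 2) | v.val ≤ k}) := by
  have ha := a.2
  have hb := b.2
  have e : ∀ x y : Fin (2 * M + 2), s(x, y) ≠ s(a, b) →
      ¬ (x.val = a.val ∧ y.val = b.val) ∧ ¬ (x.val = b.val ∧ y.val = a.val) := by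
    intro x y hne
    refine ⟨fun h' => hne ?_, fun h' => hne ?_⟩
    · rw [Fin.ext h'.1, Fin.ext h'.2]
    · rw [Fin.ext h'.1, Fin.ext h'.2, Sym2.eq_swap]
  rw [cat_adj] at h
  by_cases hs : a.val ≤ M + 1 ∧ b.val ≤ M + 1
  · refine ⟨fun x => x.val ≤ min a.val b.val ∨
      (M + 1 < x.val ∧ x.val ≤ min a.val b.val + M + 1), by omega, fun x y hxy hne => ?_,
      Or.inr ⟨min a.val b.val, Set.ext fun v => ?_⟩⟩
    · have := e x y hne
      have := x.2
      have := y.2
      rw [cat_adj] at hxy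
      omega
    · have := catLeaf_val v
      have := v.2
      simp only [Set.mem_ofPred_eq]
      omega
  · refine ⟨fun x => x.val = max a.val b.val, by omega, fun x y hxy hne => ?_,
      Or.inl fun v hv w hw => Fin.ext ?_⟩
    · have := e x y hne
      have := x.2
      have := y.2
      rw [cat_adj] at hxy
      omega
    · have := catLeaf_val v
      have := catLeaf_val w
      simp only [Set.mem_ofPred_eq] at hv hw
      omega

lemma cat_side {M : ℕ} {a b : Fin (2 * M + 2)} {φ : Fin (2 * M + 2) → Prop}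
    (h : ∀ x y, (cat M).Adj x y → s(x, y) ≠ s(a, b) → (φ x ↔ φ y)) {x : Fin (2 * M + 2)}
    (hx : ((cat M).deleteEdges {s(a, b)}).Reachable a x) : φ a ↔ φ x :=
  MP_7b563b_co.side_induction (T := cat M) (fun x => φ a ↔ φ x) Iff.rfl
    (fun x y _ hP hxy hne => hP.trans (h x y hxy hne)) x hx

lemma cat_acyclic (M : ℕ) : (cat M).IsAcyclic := by
  refine SimpleGraph.isAcyclic_iff_forall_adj_isBridge.2 fun a b hab hr => ?_
  obtain ⟨φ, h1, h2, -⟩ := cat_cut hab
  have := cat_side h2 hr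
  tauto

lemma cat_deg_one {M : ℕ} (w : Fin (2 * M + 2)) (h : w.val = 0 ∨ M + 1 ≤ w.val) :
    ((cat M).neighborSet w).ncard = 1 := by
  have hw := w.2
  rw [Set.ncard_eq_one]
  refine ⟨⟨if w.val = 0 then 1 else if w.val = M + 1 then M else w.val - (M + 1), by
    split_ifs <;> omega⟩, Set.ext fun y => ?_⟩
  have hy := y.2
  rw [SimpleGraph.mem_neighborSet, cat_adj, Set.mem_singleton_iff, Fin.ext_iff]
  simp only
  split_ifs <;> omega

lemma cat_deg_three {M : ℕ} (w : Fin (2 * M + 2)) (h : ¬ (w.val = 0 ∨ M + 1 ≤ w.val)) :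
    ((cat M).neighborSet w).ncard = 3 := by
  rw [Set.ncard_eq_three]
  refine ⟨⟨w.val - 1, by omega⟩, ⟨w.val + 1, by omega⟩, ⟨w.val + M + 1, by omega⟩, ?_, ?_, ?_,
    Set.ext fun y => ?_⟩
  · rw [Ne, Fin.ext_iff]; simp only; omega
  · rw [Ne, Fin.ext_iff]; simp only; omega
  · rw [Ne, Fin.ext_iff]; simp only; omega
  · have hy := y.2
    simp only [SimpleGraph.mem_neighborSet, cat_adj, Set.mem_insert_iff, Set.mem_singleton_iff,
      Fin.ext_iff]
    omega

/-- The caterpillar branch decomposition: every side is a set with at most one element, an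
initial segment, or the complement of one of these. -/
lemma exists_caterpillar (M : ℕ) :
    ∃ D : BranchDecomp (Fin (M + 2)), ∀ a b, D.T.Adj a b → ∃ S : Set (Fin (M + 2)),
      (D.side a b = S ∨ D.side a b = Sᶜ) ∧ (S.Subsingleton ∨ ∃ k : ℕ, S = {v | v.val ≤ k}) := by
  refine ⟨⟨2 * M + 2, cat M, ⟨cat_conn M, cat_acyclic M⟩, fun w => ?_, catLeaf M,
    fun v _ => ?_, fun v _ w _ h => ?_, fun w hw => ?_⟩, fun a b hab => ?_⟩
  · by_cases h : w.val = 0 ∨ M + 1 ≤ w.val
    · exact Or.inl (cat_deg_one w h)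
    · exact Or.inr (cat_deg_three w h)
  · have := catLeaf_val v
    exact cat_deg_one _ (by omega)
  · have h1 := catLeaf_val v
    have h2 := catLeaf_val w
    rw [h] at h1
    exact Fin.ext (by omega)
  · have h : w.val = 0 ∨ M + 1 ≤ w.val := by
      by_contra h
      have h1 := cat_deg_three w h
      rw [Set.mem_ofPred_eq] at hw
      omega
    have h2 := w.2
    refine ⟨⟨if w.val ≤ M + 1 then w.val else w.val - (M + 1), by split_ifs <;> omega⟩, trivial,
      Fin.ext ?_⟩
    have := catLeaf_val (M := M)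
      ⟨if w.val ≤ M + 1 then w.val else w.val - (M + 1), by split_ifs <;> omega⟩
    simp only at this
    split_ifs at this ⊢ <;> omega
  · obtain ⟨φ, h1, h2, h3⟩ := cat_cut hab
    have key : ∀ x, ((cat M).deleteEdges {s(a, b)}).Reachable a x ↔ (φ a ↔ φ x) := by
      refine fun x => ⟨cat_side h2, fun hx => ?_⟩
      rcases MP_7b563b_co.side_cover (cat_conn M) a b x with h | h
      · exact h
      · have := cat_side (a := b) (b := a)
          (fun x y hxy hne => h2 x y hxy (by rwa [Sym2.eq_swap (a := a)])) h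
        tauto
    refine ⟨_, ?_, h3⟩
    by_cases ha : φ a
    · exact Or.inl (Set.ext fun v => (key _).trans (by simp [ha]))
    · exact Or.inr (Set.ext fun v => (key _).trans (by simp [ha]))

end Pool.Agent.Lib.MP_7b563b_poly
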