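import Pool.Agent.Lib.MP_7b563b_poly.Upper

set_option autoImplicit false

namespace Pool.Agent.Lib.MP_7b563b_co.Lit

/-- the polynomial bound is below the earlier bound, so the earlier statement is a weaker form -/
lemma pbound_le_bound (s t : ℕ) : pbound s t ≤ bound s t := by
  have h1 : (32 * (s + 1)) ^ t ≤ 2 ^ (32 * (s + 1) * (t + 1) + 1) := by
    calc (32 * (s + 1)) ^ t ≤ (2 ^ (32 * (s + 1))) ^ t :=
          Nat.pow_le_pow_left Nat.lt_two_pow_self.le t
      _ = 2 ^ (32 * (s + 1) * t) := by rw [← pow_mul]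
      _ ≤ _ := Nat.pow_le_pow_right (by norm_num) (by nlinarith)
  unfold pbound bound
  generalize 2 ^ (32 * (s + 1) * (t + 1) + 1) = P at h1 ⊢
  generalize (32 * (s + 1)) ^ t = Q at h1 ⊢
  have h2 : 3 * t * Q + 1 ≤ 16 * (s + 1) * (1 + (2 * t + 2) * P) + 1 := by
    have h3 : t * Q ≤ t * P := Nat.mul_le_mul_left _ h1
    have h4 : 16 * (1 + (2 * t + 2) * P) ≤ 16 * (s + 1) * (1 + (2 * t + 2) * P) := by
      rw [mul_assoc]
      exact Nat.mul_le_mul_left _ (Nat.le_mul_of_pos_left _ (by omega))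
    nlinarith
  have h5 : 16 * (s + 1) * (1 + (2 * t + 2) * P) + 1 ≤ (32 * (s + 1) * (t + 1) + 1) *
      (16 * (s + 1) * (1 + (2 * t + 2) * P) + 1) := Nat.le_mul_of_pos_left _ (by omega)
  have h6 : 42 * t * Q + 17 = 14 * (3 * t * Q + 1) + 3 := by ring
  omega

end Pool.Agent.Lib.MP_7b563b_co.Lit
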