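import Mathlib

set_option autoImplicit false

namespace Pool.Agent.Lib.MP_7b563b_poly

open Finset in
/-- Counting functions with prescribed values on a set of arguments. -/
lemma card_prescribed {α β : Type*} [Fintype α] [DecidableEq α] [Fintype β] [DecidableEq β]
    (S : Finset α) (P : Finset β) :
    (Fintype.piFinset (fun e => if e ∈ S then P else (univ : Finset β))).card
      * Fintype.card β ^ S.card = P.card ^ S.card * Fintype.card β ^ Fintype.card α := by
  rw [Fintype.card_piFinset]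
  have h1 : ∏ e : α, (if e ∈ S then P else (univ : Finset β)).card
      = P.card ^ S.card * Fintype.card β ^ (Sᶜ).card := by
    rw [← Finset.prod_mul_prod_compl S]
    congr 1
    · rw [Finset.prod_congr rfl (g := fun _ => P.card) (fun e he => by simp [he])]
      simp
    · rw [Finset.prod_congr rfl (g := fun _ => Fintype.card β)
        (fun e he => by simp [Finset.mem_compl.1 he])]
      simp
  rw [h1, mul_assoc, ← pow_add, add_comm, Finset.card_add_card_compl]

open Finset in
/-- The union bound over pairs of `k`-sets. -/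
lemma card_bad (n q k : ℕ) (P : Finset (Fin q)) :
    ((powersetCard k (univ : Finset (Fin n)) ×ˢ powersetCard k (univ : Finset (Fin n))).biUnion
      (fun BC => Fintype.piFinset
        (fun e : Fin n × Fin n => if e ∈ BC.1 ×ˢ BC.2 then P else (univ : Finset (Fin q))))).card
      * q ^ (k * k) ≤ n.choose k ^ 2 * P.card ^ (k * k) * q ^ (n * n) := by
  refine le_trans (Nat.mul_le_mul_right _ Finset.card_biUnion_le) ?_
  rw [Finset.sum_mul]
  have h : ∀ BC ∈ powersetCard k (univ : Finset (Fin n)) ×ˢ powersetCard k (univ : Finset (Fin n)),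
      (Fintype.piFinset
        (fun e : Fin n × Fin n => if e ∈ BC.1 ×ˢ BC.2 then P else (univ : Finset (Fin q)))).card
        * q ^ (k * k) = P.card ^ (k * k) * q ^ (n * n) := by
    intro BC hBC
    rw [Finset.mem_product, Finset.mem_powersetCard, Finset.mem_powersetCard] at hBC
    have h1 := card_prescribed (BC.1 ×ˢ BC.2) P
    rw [Finset.card_product, hBC.1.2, hBC.2.2, Fintype.card_prod, Fintype.card_fin,
      Fintype.card_fin] at h1
    exact h1
  rw [Finset.sum_congr rfl h, Finset.sum_const, Finset.card_product, Finset.card_powersetCard,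
    Finset.card_univ, Fintype.card_fin, smul_eq_mul, sq, mul_assoc (n.choose k * n.choose k)]

lemma choose_le_pow' (n k : ℕ) : k.factorial * n.choose k ≤ n ^ k := by
  rw [← Nat.descFactorial_eq_factorial_mul_choose]
  exact Nat.descFactorial_le_pow n k

lemma two_mul_pow_le (p : ℕ) : 2 * p ^ (p + 1) ≤ (p + 1) ^ (p + 1) := by
  have h : ∀ k : ℕ, p ^ (k + 1) + (k + 1) * p ^ k ≤ (p + 1) ^ (k + 1) := by
    intro k
    induction k with
    | zero => simp
    | succ k ih =>
      calc p ^ (k + 1 + 1) + (k + 1 + 1) * p ^ (k + 1)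
          ≤ (p ^ (k + 1) + (k + 1) * p ^ k) * (p + 1) := by
            have : (p ^ (k + 1) + (k + 1) * p ^ k) * (p + 1)
                = p ^ (k + 1 + 1) + (k + 1 + 1) * p ^ (k + 1) + (k + 1) * p ^ k := by ring
            omega
        _ ≤ (p + 1) ^ (k + 1) * (p + 1) := Nat.mul_le_mul_right _ ih
        _ = (p + 1) ^ (k + 1 + 1) := by ring
  have h1 := h p
  have h2 : (p + 1) * p ^ p = p ^ (p + 1) + p ^ p := by ring
  omega

/-- A bipartite relation with no complete `t` by `t` pair and no empty `q j` by `q j` pair. -/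
lemma exists_rel (t q j n : ℕ) (ht : 2 ≤ t) (hq : 1 ≤ q) (hj1 : 1 ≤ j) (hn : n ^ 2 ≤ q ^ t)
    (hj : 2 * n ^ 2 ≤ 2 ^ j) :
    ∃ R : Fin n → Fin n → Prop,
      (∀ B C : Finset (Fin n), B.card = t → C.card = t → ¬ ∀ b ∈ B, ∀ c ∈ C, R b c) ∧
      (∀ X Y : Finset (Fin n), X.card = q * j → Y.card = q * j → ∃ x ∈ X, ∃ y ∈ Y, R x y) := by
  classical
  obtain ⟨p, rfl⟩ : ∃ p, q = p + 1 := ⟨q - 1, by omega⟩
  set m := (p + 1) * j with hm
  have hm1 : 1 ≤ m := Nat.mul_pos (Nat.succ_pos p) hj1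
  have b1 := card_bad n (p + 1) t {0}
  have b2 := card_bad n (p + 1) m ({0} : Finset (Fin (p + 1)))ᶜ
  set B1 := ((Finset.powersetCard t (Finset.univ : Finset (Fin n)) ×ˢ
    Finset.powersetCard t (Finset.univ : Finset (Fin n))).biUnion
      (fun BC => Fintype.piFinset (fun e : Fin n × Fin n =>
        if e ∈ BC.1 ×ˢ BC.2 then ({0} : Finset (Fin (p + 1))) else Finset.univ))) with hB1
  set B2 := ((Finset.powersetCard m (Finset.univ : Finset (Fin n)) ×ˢ
    Finset.powersetCard m (Finset.univ : Finset (Fin n))).biUnion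
      (fun BC => Fintype.piFinset (fun e : Fin n × Fin n =>
        if e ∈ BC.1 ×ˢ BC.2 then ({0} : Finset (Fin (p + 1)))ᶜ else Finset.univ))) with hB2
  rw [Finset.card_singleton, one_pow, mul_one] at b1
  rw [Finset.card_compl, Finset.card_singleton, Fintype.card_fin, Nat.add_sub_cancel] at b2
  have hQ : 0 < (p + 1) ^ (n * n) := pow_pos (Nat.succ_pos p) _
  have c1 : 4 * n.choose t ^ 2 ≤ (p + 1) ^ (t * t) := by
    have h1 : 2 * n.choose t ≤ n ^ t := by
      refine le_trans (Nat.mul_le_mul_right _ ?_) (choose_le_pow' n t)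
      exact le_trans (by decide : 2 ≤ Nat.factorial 2) (Nat.factorial_le ht)
    calc 4 * n.choose t ^ 2 = (2 * n.choose t) ^ 2 := by ring
      _ ≤ (n ^ t) ^ 2 := Nat.pow_le_pow_left h1 2
      _ = (n ^ 2) ^ t := by rw [← pow_mul, ← pow_mul, mul_comm]
      _ ≤ ((p + 1) ^ t) ^ t := Nat.pow_le_pow_left hn t
      _ = (p + 1) ^ (t * t) := by rw [← pow_mul]
  have c2 : 2 * (n.choose m ^ 2 * p ^ (m * m)) ≤ (p + 1) ^ (m * m) := by
    have h1 : n.choose m ≤ n ^ m :=
      le_trans (Nat.le_mul_of_pos_left _ (Nat.factorial_pos m)) (choose_le_pow' n m)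
    have h2 : 2 * n.choose m ^ 2 ≤ 2 ^ (j * m) := by
      calc 2 * n.choose m ^ 2 ≤ 2 ^ m * (n ^ m) ^ 2 :=
            Nat.mul_le_mul (by simpa using Nat.pow_le_pow_right (by norm_num : 0 < 2) hm1)
              (Nat.pow_le_pow_left h1 2)
        _ = (2 * n ^ 2) ^ m := by rw [mul_pow, ← pow_mul, ← pow_mul, mul_comm m 2]
        _ ≤ (2 ^ j) ^ m := Nat.pow_le_pow_left hj m
        _ = 2 ^ (j * m) := by rw [← pow_mul]
    have h3 : m * m = (p + 1) * (j * m) := by rw [← mul_assoc (p + 1) j m]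
    calc 2 * (n.choose m ^ 2 * p ^ (m * m)) = (2 * n.choose m ^ 2) * p ^ (m * m) := by ring
      _ ≤ 2 ^ (j * m) * p ^ (m * m) := Nat.mul_le_mul_right _ h2
      _ = (2 * p ^ (p + 1)) ^ (j * m) := by rw [mul_pow, ← pow_mul, h3]
      _ ≤ ((p + 1) ^ (p + 1)) ^ (j * m) := Nat.pow_le_pow_left (two_mul_pow_le p) _
      _ = (p + 1) ^ (m * m) := by rw [← pow_mul, h3]
  have d1 : 4 * B1.card ≤ (p + 1) ^ (n * n) := by
    refine Nat.le_of_mul_le_mul_right ?_ (pow_pos (Nat.succ_pos p) (t * t))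
    calc 4 * B1.card * (p + 1) ^ (t * t) = 4 * (B1.card * (p + 1) ^ (t * t)) := by ring
      _ ≤ 4 * (n.choose t ^ 2 * (p + 1) ^ (n * n)) := Nat.mul_le_mul_left _ b1
      _ = (4 * n.choose t ^ 2) * (p + 1) ^ (n * n) := by ring
      _ ≤ (p + 1) ^ (t * t) * (p + 1) ^ (n * n) := Nat.mul_le_mul_right _ c1
      _ = (p + 1) ^ (n * n) * (p + 1) ^ (t * t) := by ring
  have d2 : 2 * B2.card ≤ (p + 1) ^ (n * n) := by
    refine Nat.le_of_mul_le_mul_right ?_ (pow_pos (Nat.succ_pos p) (m * m))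
    calc 2 * B2.card * (p + 1) ^ (m * m) = 2 * (B2.card * (p + 1) ^ (m * m)) := by ring
      _ ≤ 2 * (n.choose m ^ 2 * p ^ (m * m) * (p + 1) ^ (n * n)) := Nat.mul_le_mul_left _ b2
      _ = (2 * (n.choose m ^ 2 * p ^ (m * m))) * (p + 1) ^ (n * n) := by ring
      _ ≤ (p + 1) ^ (m * m) * (p + 1) ^ (n * n) := Nat.mul_le_mul_right _ c2
      _ = (p + 1) ^ (n * n) * (p + 1) ^ (m * m) := by ring
  have hlt : (B1 ∪ B2).card < (Finset.univ : Finset (Fin n × Fin n → Fin (p + 1))).card := by
    have h1 := Finset.card_union_le B1 B2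
    rw [Finset.card_univ, Fintype.card_fun, Fintype.card_prod, Fintype.card_fin, Fintype.card_fin]
    omega
  obtain ⟨f, -, hf⟩ := Finset.exists_mem_notMem_of_card_lt_card hlt
  rw [Finset.mem_union, not_or] at hf
  refine ⟨fun b c => f (b, c) = 0, ?_, ?_⟩
  · intro B C hB hC hall
    apply hf.1
    rw [hB1, Finset.mem_biUnion]
    refine ⟨(B, C), ?_, ?_⟩
    · simp [Finset.mem_powersetCard, hB, hC]
    · rw [Fintype.mem_piFinset]
      rintro ⟨b, c⟩
      split_ifs with h
      · rw [Finset.mem_product] at h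
        exact Finset.mem_singleton.2 (hall b h.1 c h.2)
      · exact Finset.mem_univ _
  · intro X Y hX hY
    by_contra hno
    apply hf.2
    rw [hB2, Finset.mem_biUnion]
    refine ⟨(X, Y), ?_, ?_⟩
    · simp [Finset.mem_powersetCard, hX, hY]
    · rw [Fintype.mem_piFinset]
      rintro ⟨x, y⟩
      split_ifs with h
      · rw [Finset.mem_product] at h
        rw [Finset.mem_compl, Finset.mem_singleton]
        exact fun h0 => hno ⟨x, h.1, y, h.2, h0⟩
      · exact Finset.mem_univ _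

end Pool.Agent.Lib.MP_7b563b_poly
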