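import Pool.Agent.Lib.MP_7b563b_poly.Bag
import Pool.Agent.Lib.MP_7b563b_poly.Prob
import Pool.Agent.Lib.MP_7b563b_poly.Cat

set_option autoImplicit false

namespace Pool.Agent.Lib.MP_7b563b_poly

open Pool.Agent.Lib.MP_7b563b_co Pool.Agent.Lib.MP_7b563b_co.Lit

variable {U : Type}

/-- `H` with one pendant vertex attached to every vertex -/
def corona (H : SimpleGraph U) : SimpleGraph (U × Bool) where
  Adj x y := (x.1 = y.1 ∧ x.2 ≠ y.2) ∨ (x.2 = false ∧ y.2 = false ∧ H.Adj x.1 y.1)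
  symm := ⟨by
    rintro x y (h | h)
    · exact Or.inl ⟨h.1.symm, h.2.symm⟩
    · exact Or.inr ⟨h.2.1, h.1, h.2.2.symm⟩⟩
  loopless := ⟨by
    rintro x (h | h)
    · exact h.2 rfl
    · exact h.2.2.ne rfl⟩

lemma corona_order [Finite U] [Nonempty U] : ∃ (M : ℕ) (e : U × Bool ≃ Fin (M + 2)),
    ∀ (k : ℕ) (x y x' y' : U × Bool), x.1 = y.1 → x'.1 = y'.1 → (e x).val ≤ k → ¬ (e y).val ≤ k →
      (e x').val ≤ k → ¬ (e y').val ≤ k → x.1 = x'.1 := by
  obtain ⟨n, ⟨f⟩⟩ := Finite.exists_equiv_fin U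
  have hn : 0 < n := (f (Classical.arbitrary U)).pos
  have hM : n * 2 = (n * 2 - 2) + 2 := by omega
  refine ⟨n * 2 - 2, ((f.prodCongr finTwoEquiv.symm).trans finProdFinEquiv).trans (finCongr hM), ?_⟩
  intro k x y x' y' h1 h2
  simp only [Equiv.trans_apply, finCongr_apply, Fin.val_cast, finProdFinEquiv_apply_val,
    Equiv.prodCongr_apply, Prod.map_fst, Prod.map_snd]
  intro h3 h4 h5 h6
  rw [← h1] at h4
  rw [← h2] at h6
  have b1 := (finTwoEquiv.symm x.2).isLt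
  have b2 := (finTwoEquiv.symm y.2).isLt
  have b3 := (finTwoEquiv.symm x'.2).isLt
  have b4 := (finTwoEquiv.symm y'.2).isLt
  exact f.injective (Fin.ext (by omega))

lemma simWidth_corona [Finite U] [Nonempty U] (H : SimpleGraph U) (s : ℕ)
    (h : ∀ x y : Fin (s + 1) → U, ¬ FM H x y) : simWidth (corona H) ≤ ((s + 1 : ℕ) : ℕ∞) := by
  unfold simWidth
  split_ifs
  · exact zero_le
  obtain ⟨M, e, he⟩ := corona_order (U := U)
  obtain ⟨D, hD⟩ := exists_caterpillar M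
  let D' : BranchDecomp (U × Bool) := ⟨D.n, D.T, D.isTree, D.deg, D.leaf ∘ e,
    D.bij.comp (Set.bijOn_univ.2 e.bijective)⟩
  refine iInf_le_of_le D' (iSup_le fun a => iSup_le fun b => iSup_le fun hab => ?_)
  obtain ⟨S, hS, hS'⟩ := hD a b hab
  refine iSup_le fun N => iSup_le fun hN => ?_
  by_contra hlt
  have h1 : ((s + 2 : ℕ) : ℕ∞) ≤ N.edgeSet.encard := by
    have := Order.add_one_le_of_lt (not_le.1 hlt)
    exact_mod_cast this
  obtain ⟨x, y, hxy, hadj⟩ := exists_fm hN.1 _ h1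
  have hmem : ∀ v, v ∈ D'.side a b ↔ e v ∈ D.side a b := fun v => Iff.rfl
  have hcross : ∀ i, (e (x i) ∈ S ∧ e (y i) ∉ S) ∨ (e (x i) ∉ S ∧ e (y i) ∈ S) := by
    intro i
    have := hN.2 _ _ (hadj i)
    rw [hmem, hmem] at this
    rcases hS with h2 | h2 <;> rw [h2] at this
    · exact this
    · simp only [Set.mem_compl_iff, not_not] at this
      exact this.symm
  have hsame : ∀ i j, (x i).1 = (y i).1 → (x j).1 = (y j).1 → (x i).1 = (x j).1 := by
    intro i j hi hj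
    rcases hS' with h2 | ⟨k, rfl⟩
    · rcases hcross i with h3 | h3 <;> rcases hcross j with h4 | h4
      · rw [e.injective (h2 h3.1 h4.1)]
      · rw [e.injective (h2 h3.1 h4.2), hj]
      · rw [hi, e.injective (h2 h3.2 h4.1)]
      · rw [hi, e.injective (h2 h3.2 h4.2), hj]
    · rcases hcross i with h3 | h3 <;> rcases hcross j with h4 | h4
      · exact he k _ _ _ _ hi hj h3.1 h3.2 h4.1 h4.2
      · exact (he k _ _ _ _ hi hj.symm h3.1 h3.2 h4.2 h4.1).trans hj.symm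
      · exact hi.trans (he k _ _ _ _ hi.symm hj h3.2 h3.1 h4.1 h4.2)
      · exact hi.trans ((he k _ _ _ _ hi.symm hj.symm h3.2 h3.1 h4.2 h4.1).trans hj.symm)
  have hone : ∀ i j, (x i).1 = (y i).1 → (x j).1 = (y j).1 → i = j := by
    intro i j hi hj
    have h2 := hsame i j hi hj
    have h3 : (x j).2 ≠ (y j).2 := by
      rcases hxy.1 j with h4 | h4
      · exact h4.2
      · exact absurd hj h4.2.2.ne
    by_cases h5 : (x i).2 = (x j).2
    · exact hxy.adj_xy (Or.inl ⟨h2.trans hj, h5 ▸ h3⟩)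
    · exact absurd (Or.inl ⟨h2, h5⟩) (hxy.adj_xx i j)
  obtain ⟨i0, hi0⟩ : ∃ i0 : Fin (s + 2), ∀ i, i ≠ i0 → (x i).1 ≠ (y i).1 := by
    by_cases h2 : ∃ i, (x i).1 = (y i).1
    · obtain ⟨i0, h2⟩ := h2
      exact ⟨i0, fun i hi h3 => hi (hone i i0 h3 h2)⟩
    · exact ⟨0, fun i _ h3 => h2 ⟨i, h3⟩⟩
  have hb : ∀ i : Fin (s + 1), (x (i0.succAbove i)).2 = false ∧ (y (i0.succAbove i)).2 = false ∧
      H.Adj (x (i0.succAbove i)).1 (y (i0.succAbove i)).1 := fun i =>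
    (hxy.1 _).resolve_left fun h2 => hi0 _ (Fin.succAbove_ne i0 i) h2.1
  refine h (fun i => (x (i0.succAbove i)).1) (fun i => (y (i0.succAbove i)).1)
    ⟨fun i => (hb i).2.2, fun i j hij => ?_⟩
  have h2 := hxy.2 _ _ fun h3 => hij (Fin.succAbove_right_injective (p := i0) h3)
  exact ⟨fun h3 => h2.1 (Or.inr ⟨(hb i).1, (hb j).1, h3⟩),
    fun h3 => h2.2.1 (Or.inr ⟨(hb i).1, (hb j).2.1, h3⟩),
    fun h3 => h2.2.2 (Or.inr ⟨(hb i).2.1, (hb j).2.1, h3⟩)⟩

lemma corona_base {H : SimpleGraph U} {b c c' : U × Bool} (h1 : (corona H).Adj b c)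
    (h2 : (corona H).Adj b c') (hne : c ≠ c') : b.2 = false := by
  rcases h1 with h1 | h1
  · rcases h2 with h2 | h2
    · refine absurd (Prod.ext (h1.1.symm.trans h2.1) ?_) hne
      have h3 := h1.2
      have h4 := h2.2
      revert h3 h4
      cases b.2 <;> cases c.2 <;> cases c'.2 <;> simp
    · exact h2.1
  · exact h1.1

lemma no_obs_corona (H : SimpleGraph U) (t : ℕ) (ht : 2 ≤ t)
    (h : ∀ B C : Finset U, B.card = t → C.card = t → ¬ ∀ b ∈ B, ∀ c ∈ C, H.Adj b c) :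
    ¬ ∃ S : Set (U × Bool), IsObstruction ((corona H).induce S) t := by
  classical
  rintro ⟨S, _, B, C, _, _, _, _, _, _, _, _, _, hB, hC, _, _, _, _, _, _, _, hBC⟩
  have two : ∀ X : Set S, X.encard = t → ∃ a ∈ X, ∃ b ∈ X, a ≠ b := by
    intro X hX
    have : 1 < X.encard := by rw [hX]; exact_mod_cast ht
    obtain ⟨a, b, ha, hb, hab⟩ := Set.one_lt_encard_iff.1 this
    exact ⟨a, ha, b, hb, hab⟩
  have hB2 : ∀ b ∈ B, b.1.2 = false := by
    intro b hb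
    obtain ⟨c, hc, c', hc', hne⟩ := two C hC
    exact corona_base (hBC b hb c hc) (hBC b hb c' hc') fun h => hne (Subtype.ext h)
  have hC2 : ∀ c ∈ C, c.1.2 = false := by
    intro c hc
    obtain ⟨b, hb, b', hb', hne⟩ := two B hB
    exact corona_base (hBC b hb c hc).symm (hBC b' hb' c hc).symm fun h => hne (Subtype.ext h)
  have fin : ∀ X : Set S, X.encard = t → (∀ b ∈ X, b.1.2 = false) →
      ∃ Y : Finset U, Y.card = t ∧ ∀ u ∈ Y, ∃ b ∈ X, b.1.1 = u := by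
    intro X hX hX2
    have hf : X.Finite := Set.finite_of_encard_eq_coe hX
    refine ⟨hf.toFinset.image fun b => b.1.1, ?_, fun u hu => by simpa using hu⟩
    rw [Finset.card_image_of_injOn]
    · have := hf.encard_eq_coe_toFinset_card
      rw [hX] at this
      exact_mod_cast this.symm
    · intro a ha b hb hab
      exact Subtype.ext (Prod.ext hab ((hX2 a (by simpa using ha)).trans
        (hX2 b (by simpa using hb)).symm))
  obtain ⟨B', hB', hB3⟩ := fin B hB hB2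
  obtain ⟨C', hC', hC3⟩ := fin C hC hC2
  refine h B' C' hB' hC' fun u hu v hv => ?_
  obtain ⟨b, hb, rfl⟩ := hB3 u hu
  obtain ⟨c, hc, rfl⟩ := hC3 v hv
  rcases hBC b hb c hc with h1 | h1
  · exact absurd ((hB2 b hb).trans (hC2 c hc).symm) h1.2
  · exact h1.2.2

lemma le_mu_corona (H : SimpleGraph U) (X : Set (U × Bool)) (I : Finset (U × Bool)) (β : ℕ)
    (hβ : β ≤ I.card) (hX : ∀ v ∈ I, v ∈ X ∧ v.2 = false)
    (hI : ∀ u ∈ I, ∀ v ∈ I, ¬ H.Adj u.1 v.1) : (β : ℕ∞) ≤ mu (corona H) X := by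
  obtain ⟨p, hp, hpm⟩ := exists_fun_of_card I β hβ
  have hne : ∀ i j, i ≠ j → (p i).1 ≠ (p j).1 := fun i j hij h =>
    hij (hp (Prod.ext h ((hX _ (hpm i)).2.trans (hX _ (hpm j)).2.symm)))
  have hfm : FM (corona H) p (fun i => ((p i).1, true)) := by
    refine ⟨fun i => Or.inl ⟨rfl, by simp [(hX _ (hpm i)).2]⟩, fun i j hij => ⟨?_, ?_, ?_⟩⟩
    · rintro (h | h)
      · exact hne i j hij h.1
      · exact hI _ (hpm i) _ (hpm j) h.2.2
    · rintro (h | h)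
      · exact hne i j hij h.1
      · simp at h
    · rintro (h | h)
      · exact hne i j hij h.1
      · simp at h
  refine le_iSup_of_le hfm.sub (le_iSup_of_le ⟨⟨hfm.sub_matching, hfm.sub_induced⟩, ?_⟩
    hfm.sub_encard.ge)
  rintro a b ⟨i, ⟨rfl, rfl⟩ | ⟨rfl, rfl⟩⟩
  · exact Or.inl (hX _ (hpm i)).1
  · exact Or.inr (hX _ (hpm i)).1

/-- the bipartite graph of a relation -/
def bip {n : ℕ} (R : Fin n → Fin n → Prop) : SimpleGraph (Fin n × Bool) where
  Adj x y := (x.2 = false ∧ y.2 = true ∧ R x.1 y.1) ∨ (x.2 = true ∧ y.2 = false ∧ R y.1 x.1)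
  symm := ⟨by
    rintro x y (h | h)
    · exact Or.inr ⟨h.2.1, h.1, h.2.2⟩
    · exact Or.inl ⟨h.2.1, h.1, h.2.2⟩⟩
  loopless := ⟨by
    rintro x (h | h)
    · exact absurd (h.1.symm.trans h.2.1) (by simp)
    · exact absurd (h.1.symm.trans h.2.1) (by simp)⟩

lemma bip_free {n t : ℕ} (ht : 1 ≤ t) (R : Fin n → Fin n → Prop)
    (h : ∀ B C : Finset (Fin n), B.card = t → C.card = t → ¬ ∀ b ∈ B, ∀ c ∈ C, R b c) :
    ∀ B C : Finset (Fin n × Bool), B.card = t → C.card = t →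
      ¬ ∀ b ∈ B, ∀ c ∈ C, (bip R).Adj b c := by
  have key : ∀ B C : Finset (Fin n × Bool), B.card = t → C.card = t →
      (∀ b ∈ B, ∀ c ∈ C, (bip R).Adj b c) → ∀ b0 ∈ B, b0.2 = false → False := by
    intro B C hB hC hBC b0 hb0 hb
    obtain ⟨c0, hc0⟩ : C.Nonempty := Finset.card_pos.1 (by omega)
    have hC2 : ∀ c ∈ C, c.2 = true := by
      intro c hc
      rcases hBC b0 hb0 c hc with h1 | h1
      · exact h1.2.1
      · exact absurd (hb.symm.trans h1.1) (by simp)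
    have hB2 : ∀ b ∈ B, b.2 = false := by
      intro b hb'
      rcases hBC b hb' c0 hc0 with h1 | h1
      · exact h1.1
      · exact absurd ((hC2 c0 hc0).symm.trans h1.2.1) (by simp)
    refine h (B.image Prod.fst) (C.image Prod.fst) ?_ ?_ ?_
    · rw [Finset.card_image_of_injOn, hB]
      exact fun a ha b hb' hab => Prod.ext hab ((hB2 a ha).trans (hB2 b hb').symm)
    · rw [Finset.card_image_of_injOn, hC]
      exact fun a ha b hb' hab => Prod.ext hab ((hC2 a ha).trans (hC2 b hb').symm)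
    · intro u hu v hv
      obtain ⟨b, hb', rfl⟩ := Finset.mem_image.1 hu
      obtain ⟨c, hc, rfl⟩ := Finset.mem_image.1 hv
      rcases hBC b hb' c hc with h1 | h1
      · exact h1.2.2
      · exact absurd ((hB2 b hb').symm.trans h1.1) (by simp)
  intro B C hB hC hBC
  obtain ⟨b0, hb0⟩ : B.Nonempty := Finset.card_pos.1 (by omega)
  obtain ⟨c0, hc0⟩ : C.Nonempty := Finset.card_pos.1 (by omega)
  rcases hBC b0 hb0 c0 hc0 with h1 | h1
  · exact key B C hB hC hBC b0 hb0 h1.1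
  · exact key C B hC hB (fun c hc b hb => (hBC b hb c hc).symm) c0 hc0 h1.2.1

lemma bip_im {n m : ℕ} (R : Fin n → Fin n → Prop)
    (h : ∀ X Y : Finset (Fin n), X.card = m → Y.card = m → ∃ x ∈ X, ∃ y ∈ Y, R x y)
    (k : ℕ) (hk : k = m + m) (x y : Fin k → Fin n × Bool) : ¬ FM (bip R) x y := by
  subst hk
  intro hxy
  have hex : ∀ i, ∃ l r : Fin n, R l r ∧ (((l, false) = x i ∧ (r, true) = y i) ∨
      ((l, false) = y i ∧ (r, true) = x i)) := by
    intro i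
    rcases hxy.1 i with h1 | h1
    · exact ⟨(x i).1, (y i).1, h1.2.2, Or.inl ⟨Prod.ext rfl h1.1.symm, Prod.ext rfl h1.2.1.symm⟩⟩
    · exact ⟨(y i).1, (x i).1, h1.2.2, Or.inr ⟨Prod.ext rfl h1.2.1.symm, Prod.ext rfl h1.1.symm⟩⟩
  choose l r hR hlr using hex
  have hno : ∀ i j, R (l i) (r j) → i = j := by
    intro i j hij
    have ha : (bip R).Adj (l i, false) (r j, true) := Or.inl ⟨rfl, rfl, hij⟩
    rcases hlr i with h1 | h1 <;> rcases hlr j with h2 | h2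
    · rw [h1.1, h2.2] at ha
      exact hxy.adj_xy ha
    · rw [h1.1, h2.2] at ha
      exact absurd ha (hxy.adj_xx i j)
    · rw [h1.1, h2.2] at ha
      exact absurd ha (hxy.adj_yy i j)
    · rw [h1.1, h2.2] at ha
      exact (hxy.adj_xy ha.symm).symm
  obtain ⟨a, ha, b, hb, hab⟩ := h (Finset.univ.image fun i : Fin m => l (Fin.castAdd m i))
    (Finset.univ.image fun i : Fin m => r (Fin.natAdd m i)) (by
      rw [Finset.card_image_of_injective]
      · simp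
      · intro i j hij
        have h1 : l (Fin.castAdd m i) = l (Fin.castAdd m j) := hij
        exact Fin.castAdd_injective _ _ (hno _ _ (h1 ▸ hR (Fin.castAdd m j)))) (by
      rw [Finset.card_image_of_injective]
      · simp
      · intro i j hij
        have h1 : r (Fin.natAdd m i) = r (Fin.natAdd m j) := hij
        exact Fin.natAdd_injective _ _ (hno _ _ (h1 ▸ hR (Fin.natAdd m i))))
  obtain ⟨i, _, rfl⟩ := Finset.mem_image.1 ha
  obtain ⟨j, _, rfl⟩ := Finset.mem_image.1 hb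
  have h1 := congrArg Fin.val (hno _ _ hab)
  have h2 := i.isLt
  simp only [Fin.val_castAdd, Fin.val_natAdd] at h1
  omega

lemma le_treeMu_bip {n m β : ℕ} (R : Fin n → Fin n → Prop) (hβ : β + 3 * m ≤ n)
    (h : ∀ X Y : Finset (Fin n), X.card = m → Y.card = m → ∃ x ∈ X, ∃ y ∈ Y, R x y) :
    (β : ℕ∞) ≤ treeMu (corona (bip R)) := by
  classical
  refine le_iInf fun D => ?_
  let P : Bool → Finset ((Fin n × Bool) × Bool) := fun b =>
    Finset.univ.image fun i : Fin n => ((i, b), false)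
  have hP : ∀ b, (P b).card = n := by
    intro b
    rw [Finset.card_image_of_injective]
    · simp
    · intro i j hij
      exact congrArg (fun z => z.1.1) hij
  have hmem : ∀ b, ∀ v ∈ P b, v = ((v.1.1, b), false) := by
    intro b v hv
    obtain ⟨i, _, rfl⟩ := Finset.mem_image.1 hv
    rfl
  have hcard : ∀ b, ∀ X ⊆ P b, (X.image fun v => v.1.1).card = X.card := by
    intro b X hX
    refine Finset.card_image_of_injOn fun u hu v hv huv => ?_
    have huv' : u.1.1 = v.1.1 := huv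
    rw [hmem b u (hX hu), hmem b v (hX hv), huv']
  have hfin : ∀ b w, β ≤ ((P b).filter fun v => v ∈ D.bag w).card →
      (β : ℕ∞) ≤ ⨆ w, mu (corona (bip R)) (D.bag w) := by
    intro b w hw
    refine le_iSup_of_le w (le_mu_corona _ _ _ β hw (fun v hv => ?_) fun u hu v hv => ?_)
    · obtain ⟨h1, h2⟩ := Finset.mem_filter.1 hv
      exact ⟨h2, by rw [hmem b v h1]⟩
    · rw [hmem b u (Finset.mem_filter.1 hu).1, hmem b v (Finset.mem_filter.1 hv).1]
      rintro (h1 | h1)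
      · exact absurd (h1.1.symm.trans h1.2.1) (by simp)
      · exact absurd (h1.1.symm.trans h1.2.1) (by simp)
  obtain ⟨w, hw | hw⟩ := bag_big D (P false) (P true) m β (by rw [hP]; exact hβ)
    (by rw [hP]; exact hβ) (by
      intro X hX Y hY h1 h2
      obtain ⟨a, ha, b, hb, hab⟩ := h _ _ ((hcard _ X hX).trans h1) ((hcard _ Y hY).trans h2)
      obtain ⟨x, hx, rfl⟩ := Finset.mem_image.1 ha
      obtain ⟨y, hy, rfl⟩ := Finset.mem_image.1 hb
      refine ⟨x, hx, y, hy, ?_⟩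
      rw [hmem _ x (hX hx), hmem _ y (hY hy)]
      exact Or.inr ⟨rfl, rfl, Or.inl ⟨rfl, rfl, hab⟩⟩)
  · exact hfin false w (by convert hw)
  · exact hfin true w (by convert hw)

lemma lower_core (t q j n β : ℕ) (ht : 2 ≤ t) (hq : 1 ≤ q) (hj1 : 1 ≤ j) (hn0 : 0 < n)
    (hn : n ^ 2 ≤ q ^ t) (hj : 2 * n ^ 2 ≤ 2 ^ j) (hβ : β + 3 * (q * j) ≤ n) :
    ∃ (V : Type) (_ : Finite V) (G : SimpleGraph V), simWidth G ≤ ((2 * (q * j) : ℕ) : ℕ∞) ∧
      (¬ ∃ S : Set V, IsObstruction (G.induce S) t) ∧ (β : ℕ∞) ≤ treeMu G := by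
  obtain ⟨R, h1, h2⟩ := exists_rel t q j n ht hq hj1 hn hj
  have : Nonempty (Fin n) := ⟨⟨0, hn0⟩⟩
  have hm : 1 ≤ q * j := Nat.mul_pos hq hj1
  refine ⟨_, inferInstance, corona (bip R), ?_,
    no_obs_corona _ t ht (bip_free (by omega) R h1), le_treeMu_bip R hβ h2⟩
  have h3 := simWidth_corona (bip R) (2 * (q * j) - 1) (bip_im R h2 _ (by omega))
  have h4 : 2 * (q * j) - 1 + 1 = 2 * (q * j) := by omega
  rwa [h4] at h3

lemma eventually_le (K d : ℕ) : ∃ l0 : ℕ, 1 ≤ l0 ∧ ∀ l ≥ l0, K * l ^ d ≤ 4 ^ l := by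
  have h := tendsto_pow_const_div_const_pow_of_one_lt d (show (1 : ℝ) < 4 by norm_num)
  have h1 : (0 : ℝ) < 1 / (K + 1) := by positivity
  obtain ⟨l0, hl⟩ := Filter.eventually_atTop.1 (h.eventually (gt_mem_nhds h1))
  refine ⟨l0 + 1, by omega, fun l hl0 => ?_⟩
  have h2 := hl l (by omega)
  rw [div_lt_div_iff₀ (by positivity) (by positivity)] at h2
  have h3 : (0 : ℝ) ≤ (l : ℝ) ^ d := by positivity
  have h4 : (K : ℝ) * (l : ℝ) ^ d ≤ 4 ^ l := by nlinarith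
  exact_mod_cast h4

theorem lower (t : ℕ) (ht : 3 ≤ t) : ∃ s0 : ℕ, ∀ s ≥ s0,
    ∃ (V : Type) (_ : Finite V) (G : SimpleGraph V), simWidth G ≤ (s : ℕ∞) ∧
      (¬ ∃ S : Set V, IsObstruction (G.induce S) t) ∧ (s : ℕ∞) ^ (t - 1) ≤ treeMu G ^ 2 := by
  obtain ⟨d, rfl⟩ : ∃ d, t = d + 1 := ⟨t - 1, by omega⟩
  obtain ⟨l0, hl1, hl0⟩ := eventually_le (4 * (8 * (4 * (d + 1) + 1)) ^ d) d
  let σ : ℕ → ℕ := fun l => 2 * (4 ^ l * (2 * (d + 1) * l + 1))
  refine ⟨σ l0, fun s hs => ?_⟩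
  obtain ⟨l, hl, h1, h2⟩ : ∃ l ≥ l0, σ l ≤ s ∧ s < σ (l + 1) := by
    have hex : ∃ i, s < σ (l0 + i + 1) := by
      refine ⟨s, ?_⟩
      have h3 : 1 ≤ 4 ^ (l0 + s + 1) := Nat.one_le_pow _ _ (by norm_num)
      have h4 : l0 + s + 1 ≤ (d + 1) * (l0 + s + 1) := Nat.le_mul_of_pos_left _ (by omega)
      have h5 : 2 * (d + 1) * (l0 + s + 1) + 1 ≤
          4 ^ (l0 + s + 1) * (2 * (d + 1) * (l0 + s + 1) + 1) := Nat.le_mul_of_pos_left _ h3
      rw [mul_assoc 2 (d + 1)] at h5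
      simp only [σ]
      rw [mul_assoc 2 (d + 1)]
      omega
    refine ⟨l0 + Nat.find hex, by omega, ?_, Nat.find_spec hex⟩
    rcases h0 : Nat.find hex with _ | i
    · exact hs
    · exact not_lt.1 (Nat.find_min hex (m := i) (by omega))
  have hl' : 1 ≤ l := hl1.trans hl
  obtain ⟨a, ha⟩ : ∃ a, (d + 1) * l = a + 1 := ⟨(d + 1) * l - 1, by
    have : 1 ≤ (d + 1) * l := Nat.mul_pos (by omega) hl'
    omega⟩
  have e1 : (2 ^ (a + 1)) ^ 2 = (4 ^ l) ^ (d + 1) := by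
    rw [← ha, show (4 : ℕ) = 2 ^ 2 by norm_num, ← pow_mul, ← pow_mul, ← pow_mul]
    congr 1
    ring
  have h3 : σ (l + 1) ≤ 4 ^ l * (8 * (4 * (d + 1) + 1) * l) := by
    have : 2 * (4 * (2 * (d + 1) * (l + 1) + 1)) ≤ 8 * (4 * (d + 1) + 1) * l := by nlinarith
    calc σ (l + 1) = 4 ^ l * (2 * (4 * (2 * (d + 1) * (l + 1) + 1))) := by simp only [σ]; ring
      _ ≤ _ := Nat.mul_le_mul_left _ this
  have h4 : σ (l + 1) ^ d ≤ (2 ^ a) ^ 2 := by
    have h5 := hl0 l hl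
    have h6 : 4 * σ (l + 1) ^ d ≤ (4 ^ l) ^ (d + 1) := by
      calc 4 * σ (l + 1) ^ d ≤ 4 * (4 ^ l * (8 * (4 * (d + 1) + 1) * l)) ^ d :=
            Nat.mul_le_mul_left _ (Nat.pow_le_pow_left h3 d)
        _ = (4 ^ l) ^ d * (4 * (8 * (4 * (d + 1) + 1)) ^ d * l ^ d) := by
            rw [mul_pow, mul_pow (8 * (4 * (d + 1) + 1))]; ring
        _ ≤ (4 ^ l) ^ d * 4 ^ l := Nat.mul_le_mul_left _ h5
        _ = (4 ^ l) ^ (d + 1) := (pow_succ _ _).symm
    rw [← e1] at h6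
    have h7 : (2 ^ (a + 1)) ^ 2 = 4 * (2 ^ a) ^ 2 := by ring
    omega
  have h8 : σ (l + 1) ≤ 2 ^ a := by
    have h9 : σ (l + 1) ^ 2 ≤ σ (l + 1) ^ d := Nat.pow_le_pow_right (by omega) (by omega)
    exact (Nat.pow_le_pow_iff_left (by norm_num)).1 (h9.trans h4)
  have h10 : 3 * (4 ^ l * (2 * (d + 1) * l + 1)) ≤ σ (l + 1) := by
    have : 3 * (2 * (d + 1) * l + 1) ≤ 2 * (4 * (2 * (d + 1) * (l + 1) + 1)) := by nlinarith
    calc 3 * (4 ^ l * (2 * (d + 1) * l + 1)) = 4 ^ l * (3 * (2 * (d + 1) * l + 1)) := by ring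
      _ ≤ 4 ^ l * (2 * (4 * (2 * (d + 1) * (l + 1) + 1))) := Nat.mul_le_mul_left _ this
      _ = σ (l + 1) := by simp only [σ]; ring
  obtain ⟨V, hV, G, g1, g2, g3⟩ := lower_core (d + 1) (4 ^ l) (2 * (d + 1) * l + 1) (2 ^ (a + 1))
    (2 ^ a) (by omega) (Nat.one_le_pow _ _ (by norm_num)) (by omega) (by positivity) e1.le
    (by rw [mul_assoc 2 (d + 1) l, ha]; exact le_of_eq (by ring)) (by rw [pow_succ]; omega)
  refine ⟨V, hV, G, g1.trans (by exact_mod_cast h1), g2, le_trans ?_ (pow_le_pow_left' g3 2)⟩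
  have h11 : s ^ d ≤ (2 ^ a) ^ 2 := (Nat.pow_le_pow_left h2.le d).trans h4
  rw [Nat.add_sub_cancel]
  exact_mod_cast h11

end Pool.Agent.Lib.MP_7b563b_poly
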