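import Pool.Agent.Lib.MP_7b563b_co.LitMain

set_option autoImplicit false

namespace Pool.Agent.Lib.MP_7b563b_co

open Finset

variable {V : Type} {G : SimpleGraph V}

lemma obs_zero : Obs G 0 :=
  ⟨fun _ i => i.elim0, fun a => a.2.elim0, fun _ i => i.elim0, fun i => i.elim0,
    fun i => i.elim0, fun i => i.elim0⟩

lemma obs_of_complete3 [DecidableEq V] {t : ℕ} {M M' : Finset (V × V)} (hM : IM G M) (hM' : IM G M')
    (B C : Finset V) (hB : B ⊆ M.image Prod.fst) (hC : C ⊆ M'.image Prod.fst)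
    (hBc : B.card = t) (hCc : C.card = 3 * t) (h : ∀ u ∈ B, ∀ v ∈ C, G.Adj u v) :
    Obs G t := by
  let MB := M.filter fun e => e.1 ∈ B
  let MC := M'.filter fun e => e.1 ∈ C
  have hMB : t ≤ MB.card := by
    refine hBc.ge.trans (le_trans (Finset.card_le_card ?_) (Finset.card_image_le (f := Prod.fst)))
    intro u hu
    obtain ⟨e, he, rfl⟩ := Finset.mem_image.1 (hB hu)
    exact Finset.mem_image.2 ⟨e, Finset.mem_filter.2 ⟨he, hu⟩, rfl⟩
  have hMC : 3 * t ≤ MC.card := by
    refine hCc.ge.trans (le_trans (Finset.card_le_card ?_) (Finset.card_image_le (f := Prod.fst)))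
    intro u hu
    obtain ⟨e, he, rfl⟩ := Finset.mem_image.1 (hC hu)
    exact Finset.mem_image.2 ⟨e, Finset.mem_filter.2 ⟨he, hu⟩, rfl⟩
  have iB : IM G MB := hM.subset (Finset.filter_subset _ _)
  have iC : IM G MC := hM'.subset (Finset.filter_subset _ _)
  have hBC : ∀ e ∈ MB, ∀ e' ∈ MC, G.Adj e.1 e'.1 := fun e he e' he' =>
    h _ (Finset.mem_filter.1 he).2 _ (Finset.mem_filter.1 he').2
  obtain ⟨p, hp, hpm⟩ := exists_fun_of_card MB t (by omega)
  let A' : Finset V := Finset.univ.image fun i => (p i).2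
  have hA' : A'.card ≤ t := Finset.card_image_le.trans (by simp)
  have h1 : (MC.filter fun e => e.2 ∈ A').card ≤ A'.card := by
    refine Finset.card_le_card_of_injOn Prod.snd ?_ ?_
    · intro e he
      exact (Finset.mem_filter.1 he).2
    · exact iC.snd_inj.mono (Finset.coe_subset.2 (Finset.filter_subset _ _))
  have h1' : (MC.filter fun e => e.1 ∈ A').card ≤ A'.card := by
    refine Finset.card_le_card_of_injOn Prod.fst ?_ ?_
    · intro e he
      exact (Finset.mem_filter.1 he).2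
    · exact iC.fst_inj.mono (Finset.coe_subset.2 (Finset.filter_subset _ _))
  have h2 := Finset.card_filter_add_card_filter_not (s := MC) (fun e => e.2 ∈ A' ∨ e.1 ∈ A')
  have h3 : (MC.filter fun e => e.2 ∈ A' ∨ e.1 ∈ A').card ≤ A'.card + A'.card := by
    rw [Finset.filter_or]
    exact (Finset.card_union_le _ _).trans (Nat.add_le_add h1 h1')
  obtain ⟨q, hq, hqm⟩ :=
    exists_fun_of_card (MC.filter fun e => ¬ (e.2 ∈ A' ∨ e.1 ∈ A')) t (by omega)
  have hqC : ∀ i, q i ∈ MC := fun i => (Finset.mem_filter.1 (hqm i)).1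
  have hqA : ∀ i j, (p i).2 ≠ (q j).2 := fun i j hh =>
    (Finset.mem_filter.1 (hqm j)).2 (Or.inl (Finset.mem_image.2 ⟨i, Finset.mem_univ _, hh⟩))
  have pa : ∀ i, G.Adj (p i).1 (p i).2 := fun i => iB.1 _ (hpm i)
  have qa : ∀ i, G.Adj (q i).1 (q i).2 := fun i => iC.1 _ (hqC i)
  have pf : ∀ i j, i ≠ j → Far G (p i) (p j) := fun i j hij =>
    iB.2 _ (hpm i) _ (hpm j) fun hh => hij (hp hh)
  have qf : ∀ i j, i ≠ j → Far G (q i) (q j) := fun i j hij =>
    iC.2 _ (hqC i) _ (hqC j) fun hh => hij (hq hh)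
  have c01 : ∀ i j, (p i).2 ≠ (p j).1 := by
    intro i j hh
    by_cases hij : i = j
    · subst hij; exact (pa i).ne hh.symm
    · exact (pf i j hij).1 (hh ▸ pa i)
  have c23 : ∀ i j, (q i).1 ≠ (q j).2 := by
    intro i j hh
    by_cases hij : i = j
    · subst hij; exact (qa i).ne hh
    · exact (qf j i (Ne.symm hij)).1 (hh ▸ qa j)
  have c12 : ∀ i j, (p i).1 ≠ (q j).1 := fun i j => (hBC _ (hpm i) _ (hqC j)).ne
  have c02 : ∀ i j, (p i).2 ≠ (q j).1 := fun i j hh =>
    (Finset.mem_filter.1 (hqm j)).2 (Or.inr (Finset.mem_image.2 ⟨i, Finset.mem_univ _, hh⟩))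
  have c13 : ∀ i j, (p i).1 ≠ (q j).2 := by
    intro i j hh
    have hpos := j.pos
    obtain ⟨e, he, hne⟩ := Finset.exists_mem_ne (s := MC) (by omega) (q j)
    exact (iC.2 _ he _ (hqC j) hne).2.1 (hh ▸ (hBC _ (hpm i) _ he).symm)
  have c00 : ∀ i j, (p i).2 = (p j).2 → i = j := fun i j hh =>
    hp (iB.snd_inj (hpm i) (hpm j) hh)
  have c11 : ∀ i j, (p i).1 = (p j).1 → i = j := fun i j hh =>
    hp (iB.fst_inj (hpm i) (hpm j) hh)
  have c22 : ∀ i j, (q i).1 = (q j).1 → i = j := fun i j hh =>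
    hq (iC.fst_inj (hqC i) (hqC j) hh)
  have c33 : ∀ i j, (q i).2 = (q j).2 → i = j := fun i j hh =>
    hq (iC.snd_inj (hqC i) (hqC j) hh)
  refine ⟨![fun i => (p i).2, fun i => (p i).1, fun i => (q i).1, fun i => (q i).2],
    ?_, ?_, ?_, ?_, ?_⟩
  · rintro ⟨a, i⟩ ⟨b, j⟩ hh
    fin_cases a <;> fin_cases b <;> simp [Function.uncurry] at hh ⊢
    · exact c00 _ _ hh
    · exact c01 _ _ hh
    · exact c02 _ _ hh
    · exact hqA _ _ hh
    · exact c01 _ _ hh.symm
    · exact c11 _ _ hh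
    · exact c12 _ _ hh
    · exact c13 _ _ hh
    · exact c02 _ _ hh.symm
    · exact c12 _ _ hh.symm
    · exact c22 _ _ hh
    · exact c23 _ _ hh
    · exact hqA _ _ hh.symm
    · exact c13 _ _ hh.symm
    · exact c23 _ _ hh.symm
    · exact c33 _ _ hh
  · intro a i j
    by_cases hij : i = j
    · subst hij; exact G.irrefl
    · fin_cases a
      · exact (pf i j hij).2.2.2
      · exact (pf i j hij).1
      · exact (qf i j hij).1
      · exact (qf i j hij).2.2.2
  · intro i j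
    constructor
    · intro hh
      by_contra hij
      exact (pf i j hij).2.2.1 hh
    · rintro rfl
      exact (pa i).symm
  · intro i j
    constructor
    · intro hh
      by_contra hij
      exact (qf i j hij).2.1 hh
    · rintro rfl
      exact qa i
  · intro i j
    exact hBC _ (hpm i) _ (hqC j)
/-- Kovari-Sos-Turan count: no `t`-subset of `L` has `c` common neighbours in `L'`. -/
lemma kst_pow {α : Type} [DecidableEq α] (R : α → α → Prop) [DecidableRel R] (t c : ℕ)
    (L L' : Finset α)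
    (h : ∀ B ⊆ L, ∀ C ⊆ L', B.card = t + 1 → C.card = c → ¬ ∀ u ∈ B, ∀ v ∈ C, R u v) :
    ∃ Y : ℕ, ∑ u ∈ L, (L'.filter fun v => R u v).card ≤ t * L'.card + Y ∧
      Y ^ (t + 1) ≤ L'.card ^ t * (c * L.card ^ (t + 1)) := by
  classical
  let d : α → ℕ := fun v => (L.filter fun u => R u v).card
  have e1 : ∑ u ∈ L, (L'.filter fun v => R u v).card = ∑ v ∈ L', d v := by
    simp only [d, Finset.card_filter]
    exact Finset.sum_comm
  have e2 : ∑ v ∈ L', (d v).choose (t + 1) ≤ c * L.card.choose (t + 1) := by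
    have e3 : ∀ v, (d v).choose (t + 1) =
        ∑ B ∈ L.powersetCard (t + 1), if (∀ u ∈ B, R u v) then 1 else 0 := by
      intro v
      rw [← Finset.card_filter, ← Finset.card_powersetCard]
      congr 1
      ext B
      simp only [Finset.mem_powersetCard, Finset.mem_filter, Finset.subset_iff]
      constructor
      · rintro ⟨h1, h2⟩
        exact ⟨⟨fun u hu => (h1 hu).1, h2⟩, fun u hu => (h1 hu).2⟩
      · rintro ⟨⟨h1, h2⟩, h3⟩
        exact ⟨fun u hu => ⟨h1 hu, h3 u hu⟩, h2⟩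
    simp only [e3]
    rw [Finset.sum_comm, ← Finset.card_powersetCard, mul_comm, ← smul_eq_mul]
    refine Finset.sum_le_card_nsmul _ _ _ fun B hB => ?_
    rw [← Finset.card_filter]
    by_contra hlt
    obtain ⟨C, hC, hCc⟩ := Finset.exists_subset_card_eq (not_le.1 hlt).le
    rw [Finset.mem_powersetCard] at hB
    exact h B hB.1 C (hC.trans (Finset.filter_subset _ _)) hB.2 hCc
      fun u hu v hv => (Finset.mem_filter.1 (hC hv)).2 u hu
  refine ⟨∑ v ∈ L', (d v - t), ?_, ?_⟩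
  · rw [e1, mul_comm, ← smul_eq_mul, ← Finset.sum_const, ← Finset.sum_add_distrib]
    exact Finset.sum_le_sum fun v _ => by omega
  · refine (pow_sum_le_card_mul_sum_pow (fun v _ => Nat.zero_le _) t).trans
      (Nat.mul_le_mul_left _ ?_)
    calc ∑ v ∈ L', (d v - t) ^ (t + 1) ≤ ∑ v ∈ L', (t + 1).factorial * (d v).choose (t + 1) := by
          refine Finset.sum_le_sum fun v _ => ?_
          have := Nat.pow_sub_le_descFactorial (d v) (t + 1)
          rw [Nat.descFactorial_eq_factorial_mul_choose, Nat.add_sub_add_right] at this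
          exact this
      _ = (t + 1).factorial * ∑ v ∈ L', (d v).choose (t + 1) := by rw [Finset.mul_sum]
      _ ≤ (t + 1).factorial * (c * L.card.choose (t + 1)) := Nat.mul_le_mul_left _ e2
      _ = c * L.card.descFactorial (t + 1) := by
          rw [Nat.descFactorial_eq_factorial_mul_choose]; ring
      _ ≤ c * L.card ^ (t + 1) := Nat.mul_le_mul_left _ (Nat.descFactorial_le_pow _ _)

/-- size of good sets -/
def qk (s t : ℕ) : ℕ := 3 * t * (32 * (s + 1)) ^ t + 1

lemma numeric_pow (s t e Y : ℕ) (h1 : e ≤ t * qk s (t + 1) + Y)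
    (h2 : Y ^ (t + 1) ≤ qk s (t + 1) ^ t * (3 * (t + 1) * qk s (t + 1) ^ (t + 1))) :
    16 * (s + 1) * (qk s (t + 1) + e) < qk s (t + 1) ^ 2 := by
  obtain ⟨N, hN⟩ : ∃ N, N = 32 * (s + 1) := ⟨_, rfl⟩
  obtain ⟨k, hk⟩ : ∃ k, k = qk s (t + 1) := ⟨_, rfl⟩
  rw [← hk] at h1 h2 ⊢
  have hk1 : k = 3 * (t + 1) * N ^ (t + 1) + 1 := by rw [hk, hN]; rfl
  have hk0 : 0 < k := by omega
  have hN1 : 1 ≤ N := by omega
  have h3 : N ≤ N ^ (t + 1) := Nat.le_self_pow (by omega) N
  have h4 : N * (t + 1) ≤ k := by nlinarith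
  have h5 : N * Y < k ^ 2 := by
    by_contra hge
    have h6 : (k ^ 2) ^ (t + 1) ≤ (N * Y) ^ (t + 1) := Nat.pow_le_pow_left (not_lt.1 hge) _
    have h7 : (N * Y) ^ (t + 1) ≤ N ^ (t + 1) * (k ^ t * (3 * (t + 1) * k ^ (t + 1))) := by
      rw [mul_pow]; exact Nat.mul_le_mul_left _ h2
    have h8 : (k ^ 2) ^ (t + 1) = k * (k ^ t * k ^ (t + 1)) := by ring
    have h9 : N ^ (t + 1) * (k ^ t * (3 * (t + 1) * k ^ (t + 1))) =
        (3 * (t + 1) * N ^ (t + 1)) * (k ^ t * k ^ (t + 1)) := by ring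
    have h10 := h6.trans h7
    rw [h8, h9] at h10
    have h11 := Nat.le_of_mul_le_mul_right h10 (by positivity)
    omega
  have h12 : N * (t + 1) * k ≤ k ^ 2 := by rw [sq]; exact Nat.mul_le_mul_right _ h4
  have h13 : N * (k + e) ≤ N * (t + 1) * k + N * Y := by nlinarith
  have h14 : 2 * (16 * (s + 1) * (k + e)) = N * (k + e) := by rw [hN]; ring
  omega

/-- The key lemma: a cut with no large strong induced matching has a vertex cover of small mu. -/
lemma cut_cover_pow [Fintype V] {s t : ℕ} (hobs : ¬ Obs G t) (A : Set V)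
    (hsim : ∀ M : Finset (V × V), IM G M → (∀ e ∈ M, e.1 ∈ A ∧ e.2 ∉ A) → M.card ≤ s) :
    ∃ X : Set V, (∀ u v, G.Adj u v → u ∈ A → v ∉ A → u ∈ X ∨ v ∈ X) ∧ MuLe G X (2 * qk s t) := by
  classical
  obtain ⟨t, rfl⟩ : ∃ r, t = r + 1 := by
    rcases t with _ | r
    · exact absurd obs_zero hobs
    · exact ⟨r, rfl⟩
  have h80 : (0 : ℝ) ≤ 4 * ((s : ℝ) + 1) := by positivity
  obtain ⟨k, hk⟩ : ∃ k, k = qk s (t + 1) := ⟨_, rfl⟩
  rw [← hk]
  let E : Finset (V × V) := Finset.univ.filter fun e => G.Adj e.1 e.2 ∧ e.1 ∈ A ∧ e.2 ∉ A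
  let F : Finset (Finset V) := Finset.univ.filter fun L =>
    L.card = k ∧ ∃ M : Finset (V × V), IM G M ∧ L ⊆ M.image Prod.fst
  rcases cover_alternative E F (k / 2) with ⟨x, hx0, hxE, hxF⟩ | ⟨p, l, hp, hl, hpos, hdeg, hsum⟩
  · refine ⟨{v | 1 / 2 ≤ x v}, fun u v huv hu hv => ?_, ?_⟩
    · have := hxE (u, v) (Finset.mem_filter.2 ⟨Finset.mem_univ _, huv, hu, hv⟩)
      by_contra hno
      simp only [Set.mem_ofPred_eq, not_or, not_le] at hno
      dsimp only at this
      linarith [hno.1, hno.2]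
    · have main : ∀ M : Finset (V × V), IM G M → (∀ e ∈ M, 1 / 2 ≤ x e.1) → M.card ≤ k := by
        intro M hM hX
        by_contra hlt
        push Not at hlt
        have hc : k ≤ (M.image Prod.fst).card := by
          rw [Finset.card_image_of_injOn hM.fst_inj]; exact hlt.le
        obtain ⟨L, hL, hLk⟩ := Finset.exists_subset_card_eq hc
        have h1 := hxF L (Finset.mem_filter.2 ⟨Finset.mem_univ _, hLk, M, hM, hL⟩)
        have h2 : ∑ v ∈ L, (1 / 2 : ℝ) ≤ ∑ v ∈ L, x v := by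
          refine Finset.sum_le_sum fun v hv => ?_
          obtain ⟨e, he, rfl⟩ := Finset.mem_image.1 (hL hv)
          exact hX e he
        rw [Finset.sum_const, hLk, nsmul_eq_mul] at h2
        linarith
      intro M hM ht
      have h1 := main (M.filter fun e => 1 / 2 ≤ x e.1) (hM.subset (Finset.filter_subset _ _))
        fun e he => (Finset.mem_filter.1 he).2
      have h2 := main ((M.filter fun e => ¬ 1 / 2 ≤ x e.1).image Prod.swap)
        (hM.subset (Finset.filter_subset _ _)).swap (by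
          intro e he
          obtain ⟨a, ha, rfl⟩ := Finset.mem_image.1 he
          have h3 := Finset.mem_filter.1 ha
          exact (ht a h3.1).resolve_left h3.2)
      rw [Finset.card_image_of_injective _ Prod.swap_injective] at h2
      have := Finset.card_filter_add_card_filter_not (s := M) (fun e => 1 / 2 ≤ x e.1)
      omega
  · exfalso
    let R : V → V → Prop := fun u v => u = v ∨ G.Adj u v
    have Rs : ∀ u v, R u v → R v u := fun u v h => h.imp Eq.symm G.adj_symm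
    have hg := greedy E p hp
      (fun e e' => R e.1 e'.1 ∨ R e.1 e'.2 ∨ R e.2 e'.1 ∨ R e.2 e'.2)
      (fun e => Or.inl (Or.inl rfl)) (fun e e' h => by
        rcases h with h | h | h | h
        · exact Or.inl (Rs _ _ h)
        · exact Or.inr (Or.inr (Or.inl (Rs _ _ h)))
        · exact Or.inr (Or.inl (Rs _ _ h))
        · exact Or.inr (Or.inr (Or.inr (Rs _ _ h)))) s (by
        intro M hM hind
        refine hsim M ⟨fun e he => (Finset.mem_filter.1 (hM he)).2.1, fun e he e' he' hne => ?_⟩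
          fun e he => (Finset.mem_filter.1 (hM he)).2.2
        have := hind e he e' he' hne
        simp only [R, not_or] at this
        exact ⟨this.1.2, this.2.1.2, this.2.2.1.2, this.2.2.2.2⟩)
    have hq := quad_bound R E p hp
    have hLam0 : 0 ≤ ∑ L ∈ F, l L := Finset.sum_nonneg fun L _ => hl L
    have hdeg0 : ∀ v, 0 ≤ ∑ e ∈ E, p e *
        ((if e.1 = v then 1 else 0) + (if e.2 = v then 1 else 0)) := fun v =>
      Finset.sum_nonneg fun e _ => mul_nonneg (hp e) (by split_ifs <;> norm_num)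
    have hkpos : 0 < k := by rw [hk]; exact Nat.succ_pos _
    obtain ⟨Emax, hE⟩ : ∃ Emax : ℕ, Emax = (k ^ 2 - 1) / (16 * (s + 1)) := ⟨_, rfl⟩
    have h1 : (∑ u, ∑ v, (if R u v then (1 : ℝ) else 0) *
      ((∑ e ∈ E, p e * ((if e.1 = u then 1 else 0) + (if e.2 = u then 1 else 0))) *
       (∑ e ∈ E, p e * ((if e.1 = v then 1 else 0) + (if e.2 = v then 1 else 0))))) ≤
       ∑ u, ∑ v, (if R u v then (1 : ℝ) else 0) *
      ((∑ L ∈ F, l L * (if u ∈ L then 1 else 0)) * (∑ L ∈ F, l L * (if v ∈ L then 1 else 0))) := by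
      refine Finset.sum_le_sum fun u _ => Finset.sum_le_sum fun v _ => ?_
      refine mul_le_mul_of_nonneg_left ?_ (by split_ifs <;> norm_num)
      exact mul_le_mul (hdeg u) (hdeg v) (hdeg0 v) ((hdeg0 u).trans (hdeg u))
    rw [bil _ F F] at h1
    have h2 : ∑ L ∈ F, ∑ L' ∈ F, ∑ u, ∑ v, (if R u v then (1 : ℝ) else 0) *
        ((l L * (if u ∈ L then 1 else 0)) * (l L' * (if v ∈ L' then 1 else 0))) ≤
        ∑ L ∈ F, ∑ L' ∈ F, l L * l L' * Emax := by
      refine Finset.sum_le_sum fun L hL => Finset.sum_le_sum fun L' hL' => ?_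
      obtain ⟨hLk, M, hM, hLM⟩ := (Finset.mem_filter.1 hL).2
      obtain ⟨hLk', M', hM', hLM'⟩ := (Finset.mem_filter.1 hL').2
      have h3 := pair_count (G := G) L L'
      obtain ⟨Y, h4, h4'⟩ := kst_pow G.Adj t (3 * (t + 1)) L L' (by
        intro B hB C hC hBc hCc hcomp
        exact hobs (obs_of_complete3 hM hM' B C (hB.trans hLM) (hC.trans hLM') hBc hCc hcomp))
      rw [hLk', hk] at h4
      rw [hLk', hLk, hk] at h4'
      have h5 : L.card + ∑ u ∈ L, (L'.filter fun v => G.Adj u v).card ≤ Emax := by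
        have := numeric_pow s t _ Y h4 h4'
        rw [← hk] at this
        rw [hLk, hE, Nat.le_div_iff_mul_le (by omega), mul_comm]
        omega
      have h6 : ((L.card + ∑ u ∈ L, (L'.filter fun v => G.Adj u v).card : ℕ) : ℝ) ≤ Emax := by
        exact_mod_cast h5
      calc ∑ u, ∑ v, (if R u v then (1 : ℝ) else 0) *
            ((l L * (if u ∈ L then 1 else 0)) * (l L' * (if v ∈ L' then 1 else 0)))
          = l L * l L' * ∑ u, ∑ v, (if (u = v ∨ G.Adj u v) then (1 : ℝ) else 0) *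
            ((if u ∈ L then 1 else 0) * (if v ∈ L' then 1 else 0)) := by
            rw [Finset.mul_sum]
            refine Finset.sum_congr rfl fun u _ => ?_
            rw [Finset.mul_sum]
            refine Finset.sum_congr rfl fun v _ => ?_
            ring
        _ ≤ l L * l L' * Emax :=
            mul_le_mul_of_nonneg_left (h3.trans h6) (mul_nonneg (hl L) (hl L'))
    have h7 : ∑ L ∈ F, ∑ L' ∈ F, l L * l L' * Emax = (∑ L ∈ F, l L) ^ 2 * Emax := by
      rw [sq, Finset.sum_mul_sum, Finset.sum_mul]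
      refine Finset.sum_congr rfl fun L _ => ?_
      rw [Finset.sum_mul]
    have h81 := hq.trans (h1.trans (h2.trans h7.le))
    have h82 := mul_le_mul_of_nonneg_left h81 h80
    have h9 : (16 * (s + 1) * Emax : ℝ) < (k : ℝ) ^ 2 := by
      have h10 : 16 * (s + 1) * Emax ≤ k ^ 2 - 1 := by rw [hE]; exact Nat.mul_div_le _ _
      have h11 : 0 < k ^ 2 := by positivity
      have h12 : 16 * (s + 1) * Emax < k ^ 2 := by omega
      exact_mod_cast h12
    have hk0 : (0 : ℝ) < k := by exact_mod_cast hkpos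
    exact final_arith s _ _ Emax k hLam0 hpos hsum (hg.trans h82) h9 hk0

end Pool.Agent.Lib.MP_7b563b_co

namespace Pool.Agent.Lib.MP_7b563b_co.Lit

universe u

/-- the polynomial bound -/
def pbound (s t : ℕ) : ℕ := 42 * t * (32 * (s + 1)) ^ t + 17

lemma pbound_eq (s t : ℕ) : pbound s t = 3 * (2 * (2 * qk s t) + 1) + 2 * qk s t := by
  unfold pbound qk
  ring

lemma pcore0 {V : Type} [Fintype V] (G : SimpleGraph V) (s t n : ℕ) (T : SimpleGraph (Fin n))
    (L : V → Fin n) (hT : T.IsTree) (hdeg : ∀ w, (T.neighborSet w).ncard ≤ 3)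
    (hL : Function.Injective L)
    (hcut : ∀ u w, T.Adj u w → ∀ x y : Fin (s + 1) → V, FM G x y →
      ¬ ∀ i, (T.deleteEdges {s(u, w)}).Reachable u (L (x i)) ∧
        ¬ (T.deleteEdges {s(u, w)}).Reachable u (L (y i)))
    (hobs : ¬ FObs G t) :
    ∃ (n : ℕ) (T : SimpleGraph (Fin n)) (bag : Fin n → Set V),
      T.IsTree ∧ (∀ v, ∃ w, v ∈ bag w) ∧
      (∀ v v', G.Adj v v' → ∃ w, v ∈ bag w ∧ v' ∈ bag w) ∧
      (∀ v, (T.induce {w | v ∈ bag w}).Connected) ∧
      ∀ w, ∀ x y : Fin (pbound s t + 1) → V, FM G x y → ¬ ∀ i, x i ∈ bag w ∨ y i ∈ bag w := by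
  classical
  have htd : TD G Set.univ ∅ (3 * (2 * (2 * qk s t) + 1) + 2 * qk s t) := by
    refine td_exists (2 * qk s t) ?_ _ Set.univ ∅ (Set.empty_subset _) (muLe_empty _) le_rfl
    intro Z hZ
    obtain ⟨u, w, huw, h1, h2⟩ := balanced_edge hT hdeg L hL Z _ (by omega) hZ
    obtain ⟨X, hX1, hX2⟩ := cut_cover_pow (s := s) (t := t) hobs
      {v | L v ∈ Pool.Agent.Lib.MP_7b563b_co.side T u w} (by
      intro M hM hMA
      by_contra hlt
      obtain ⟨x, y, hxy, hind⟩ := im_to_fun hM (m := s + 1) (by omega)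
      exact hcut u w huw x y ⟨fun i => hM.1 _ (hxy i), hind⟩
        fun i => ⟨(hMA _ (hxy i)).1, (hMA _ (hxy i)).2⟩)
    exact ⟨{v | L v ∈ Pool.Agent.Lib.MP_7b563b_co.side T u w}, X, h1, h2, hX1, hX2⟩
  obtain ⟨n', T', bag, h1, h2, h3, h4, h5⟩ := htd.toFin
  refine ⟨n', T', bag, h1, h2, h3, h4, fun w x y hxy hb => ?_⟩
  obtain ⟨M, hM, hc, hm⟩ := fun_to_im x y hxy.1 hxy.2
  have := h5 w M hM (by
    intro e he
    obtain ⟨i, rfl⟩ := hm e he
    exact hb i)
  rw [pbound_eq] at hc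
  omega

lemma pcore {V : Type u} [Finite V] (G : SimpleGraph V) (s t n : ℕ) (T : SimpleGraph (Fin n))
    (L : V → Fin n) (hT : T.IsTree) (hdeg : ∀ w, (T.neighborSet w).ncard ≤ 3)
    (hL : Function.Injective L)
    (hcut : ∀ u w, T.Adj u w → ∀ x y : Fin (s + 1) → V, FM G x y →
      ¬ ∀ i, (T.deleteEdges {s(u, w)}).Reachable u (L (x i)) ∧
        ¬ (T.deleteEdges {s(u, w)}).Reachable u (L (y i)))
    (hobs : ¬ FObs G t) :
    ∃ D : TreeDecomp G, ∀ w, ∀ x y : Fin (pbound s t + 1) → V, FM G x y →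
      ¬ ∀ i, x i ∈ D.bag w ∨ y i ∈ D.bag w := by
  obtain ⟨k, ⟨e⟩⟩ := Finite.exists_equiv_fin V
  obtain ⟨n', T', bag, h1, h2, h3, h4, h5⟩ := pcore0 (G.comap e.symm) s t n T (L ∘ e.symm) hT hdeg
    (hL.comp e.symm.injective)
    (fun u w huw x y hxy => hcut u w huw (e.symm ∘ x) (e.symm ∘ y) hxy)
    (by
      rintro ⟨f, hf, h⟩
      exact hobs ⟨fun p i => e.symm (f p i), e.symm.injective.comp hf, h⟩)
  refine ⟨⟨n', T', h1, fun w => {v | e v ∈ bag w}, fun v => h2 (e v), fun a b hab => ?_,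
    fun v => h4 (e v)⟩, fun w x y hxy hb => ?_⟩
  · exact h3 (e a) (e b) (by simpa using hab)
  · refine h5 w (e ∘ x) (e ∘ y) ⟨fun i => by simpa using hxy.1 i, fun i j hij => ?_⟩ hb
    simpa using hxy.2 i j hij

variable {V : Type u} {G : SimpleGraph V}

theorem pmain [Finite V] (G : SimpleGraph V) (s t : ℕ) (hs : simWidth G ≤ s)
    (hobs : ¬ ∃ S : Set V, IsObstruction (G.induce S) t) : treeMu G ≤ pbound s t := by
  have hobs' : ¬ FObs G t := fun h => hobs (obstruction_of_fobs h)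
  have hD : ∃ D : TreeDecomp G, ∀ w, ∀ x y : Fin (pbound s t + 1) → V, FM G x y →
      ¬ ∀ i, x i ∈ D.bag w ∨ y i ∈ D.bag w := by
    by_cases hV : Nat.card V ≤ 1
    · have : Subsingleton V := Finite.card_le_one_iff_subsingleton.1 hV
      refine pcore G s t 1 ⊥ (fun _ => 0) SimpleGraph.IsTree.of_subsingleton (fun w => by simp)
        (fun a b _ => Subsingleton.elim a b) (fun u w huw => huw.elim) hobs'
    · rw [simWidth, if_neg hV] at hs
      have hlt : (⨅ D : BranchDecomp V, D.width G) < ((s + 1 : ℕ) : ℕ∞) :=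
        hs.trans_lt (by exact_mod_cast Nat.lt_succ_self s)
      obtain ⟨D, hD⟩ := iInf_lt_iff.1 hlt
      refine pcore G s t D.n D.T D.leaf D.isTree (fun w => by rcases D.deg w with h | h <;> omega)
        (fun a b hab => D.bij.injOn trivial trivial hab) (fun u w huw x y hxy hb => ?_) hobs'
      refine absurd hD (not_lt.2 ?_)
      refine le_iSup_of_le u (le_iSup_of_le w (le_iSup_of_le huw ?_))
      refine le_iSup_of_le hxy.sub (le_iSup_of_le ⟨⟨hxy.sub_matching, hxy.sub_induced⟩, ?_⟩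
        hxy.sub_encard.ge)
      rintro a b ⟨i, ⟨rfl, rfl⟩ | ⟨rfl, rfl⟩⟩
      · exact Or.inl (hb i)
      · exact Or.inr ⟨(hb i).2, (hb i).1⟩
  obtain ⟨D, hD⟩ := hD
  refine iInf_le_of_le D (iSup_le fun w => iSup_le fun M => iSup_le fun hM => ?_)
  by_contra hlt
  have h1 : ((pbound s t + 1 : ℕ) : ℕ∞) ≤ M.edgeSet.encard := by
    push_cast
    exact Order.add_one_le_of_lt (not_le.1 hlt)
  obtain ⟨x, y, hxy, hadj⟩ := exists_fm hM.1 _ h1
  exact hD w x y hxy fun i => hM.2 _ _ (hadj i)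

end Pool.Agent.Lib.MP_7b563b_co.Lit
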